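import Pool.Agent.KS6_94.BX.C

/-!
Expansions in a non-integer base: if almost every number has an expansion whose asymptotic
statistics (all block frequencies, all Birkhoff averages of continuous functions, all averages of
countably many asymptotically additive functionals) are prescribed, then almost every number has a
continuum of such expansions.
-/

set_option autoImplicit false

namespace Pool.Agent.Results.MP_d4a354_an.AllStatistics

open Filter MeasureTheory Topology

variable {m : ℕ}

/-- Asymptotically additive functionals of the digit sequences: `S w n` grows at most linearly,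
depends only on the first `n` digits of `w` up to an error `o(n)`, and is additive under
concatenation up to an error which is small compared with the length. -/
structure AsympAdd (S : (ℕ → Fin (m + 1)) → ℕ → ℝ) : Prop where
  bdd : ∃ B : ℝ, ∀ w (n : ℕ), |S w n| ≤ B * (n + 1)
  loc : ∀ ε > 0, ∃ K : ℝ, ∀ w w' (n : ℕ), (∀ i < n, w i = w' i) → |S w n - S w' n| ≤ ε * n + K
  add : ∀ ε > 0, ∃ K : ℝ, ∀ w (n l : ℕ),
    |S w (n + l) - S w n - S (fun i => w (n + i)) l| ≤ ε * (n + l) + K

/-- `ε` is an expansion of `x` in base `β` -/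
def Expands (β x : ℝ) (ε : ℕ → Fin (m + 1)) : Prop :=
  HasSum (fun i => ((ε i : ℕ) : ℝ) / β ^ (i + 1)) x

/-- the expansions for which the upper limit of the averages of `S τ` is `a τ` for all `τ` -/
def E {ι : Type} (β : ℝ) (S : ι → (ℕ → Fin (m + 1)) → ℕ → ℝ) (a : ι → ℝ) (x : ℝ) :
    Set (ℕ → Fin (m + 1)) :=
  {ε | Expands β x ε ∧ ∀ τ, limsup (fun n : ℕ => S τ ε n / n) atTop = a τ}

/-- the average of `f` along the first `n` shifts of `ε` -/
noncomputable def average (f : (ℕ → Fin (m + 1)) → ℝ) (ε : ℕ → Fin (m + 1)) (n : ℕ) : ℝ :=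
  (∑ i ∈ Finset.range n, f (fun k => ε (i + k))) / n

/-- the expansions for which the averages of `f τ` have upper limit `u τ` and lower limit `l τ` -/
def EC {ι : Type} (β : ℝ) (f : ι → (ℕ → Fin (m + 1)) → ℝ) (u l : ι → ℝ) (x : ℝ) :
    Set (ℕ → Fin (m + 1)) :=
  {ε | Expands β x ε ∧
    ∀ τ, limsup (average (f τ) ε) atTop = u τ ∧ liminf (average (f τ) ε) atTop = l τ}

open Classical in
/-- the proportion of the `i < n` such that the word `v` occurs in `ε` at the place `i` -/
noncomputable def freq (v : List (Fin (m + 1))) (ε : ℕ → Fin (m + 1)) (n : ℕ) : ℝ :=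
  (((Finset.range n).filter fun i => ∀ (j : ℕ) (h : j < v.length), ε (i + j) = v[j]).card : ℝ) / n

/-- the expansions in which every word `v` in `W` has upper frequency `u v` and lower frequency
`l v` -/
def EW (β : ℝ) (W : Set (List (Fin (m + 1)))) (u l : List (Fin (m + 1)) → ℝ) (x : ℝ) :
    Set (ℕ → Fin (m + 1)) :=
  {ε | Expands β x ε ∧ ∀ v ∈ W, limsup (freq v ε) atTop = u v ∧ liminf (freq v ε) atTop = l v}

/-- almost every `x` in the interval of the numbers with an expansion with digits `0, …, m` -/
def AlmostEvery (β : ℝ) (m : ℕ) (p : ℝ → Prop) : Prop :=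
  ∀ᵐ x ∂volume.restrict (Set.Icc (0 : ℝ) (m / (β - 1))), p x

section aux

open Pool.Agent.KS6_94.BX Pool.Agent.H.MP_d4a354_an

theorem asymp_iff (S : (ℕ → Fin (m + 1)) → ℕ → ℝ) :
    AsympAdd S ↔ Pool.Agent.KS6_94.BX.AsympAdd S :=
  ⟨fun h => ⟨h.1, h.2, h.3⟩, fun h => ⟨h.1, h.2, h.3⟩⟩

theorem ev_zero : Ev (fun _ => 0) 0 := by
  intro η hη
  refine ⟨Eventually.of_forall fun n => ?_, (Eventually.of_forall fun n => ?_).frequently⟩
  · have : (0 : ℝ) ≤ n := Nat.cast_nonneg _
    positivity
  · have : (0 : ℝ) ≤ n := Nat.cast_nonneg _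
    nlinarith

theorem general (β : ℝ) (hβ : 1 < β) (hm : β < m + 1) (ι : Type) [Countable ι]
    (S : ι → (ℕ → Fin (m + 1)) → ℕ → ℝ) (a : ι → ℝ) (hS : ∀ τ, AsympAdd (S τ)) :
    AlmostEvery β m (fun x => (E β S a x).Nonempty) ↔
    AlmostEvery β m (fun x => Cardinal.mk (E β S a x) = Cardinal.continuum) := by
  have hm' : 0 < m := by
    rcases Nat.eq_zero_or_pos m with rfl | h
    · norm_num at hm; linarith
    · exact h
  refine ⟨fun h => ?_, fun h => h.mono fun x hx => ?_⟩
  swap
  · rw [← Set.nonempty_coe_sort, ← Cardinal.mk_ne_zero_iff, hx]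
    exact Cardinal.continuum_ne_zero
  let _ : Encodable ι := Encodable.ofCountable ι
  let S' : ℕ → (ℕ → Fin (m + 1)) → ℕ → ℝ := fun k =>
    match (Encodable.decode k : Option ι) with
    | some τ => S τ
    | none => fun _ _ => 0
  let a' : ℕ → ℝ := fun k =>
    match (Encodable.decode k : Option ι) with
    | some τ => a τ
    | none => 0
  have hS' : ∀ k, Pool.Agent.KS6_94.BX.AsympAdd (S' k) := by
    intro k
    simp only [S']
    rcases hk : (Encodable.decode k : Option ι) with _ | τ
    · simp only
      refine ⟨⟨0, fun w n => by simp⟩, fun ε hε => ⟨0, fun w w' n _ => ?_⟩,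
        fun ε hε => ⟨0, fun w n l => ?_⟩⟩
      · simp only [sub_self, abs_zero]
        positivity
      · simp only [sub_self, abs_zero]
        positivity
    · simp only
      exact (asymp_iff _).1 (hS τ)
  have hgood : ∀ ε : ℕ → Fin (m + 1), Good S' a' ε ↔ ∀ τ, Ev (S τ ε) (a τ) := by
    intro ε
    constructor
    · intro hg τ
      have := hg (Encodable.encode τ)
      simpa only [S', a', Encodable.encodek] using this
    · intro hg k
      simp only [S', a']
      rcases hk : (Encodable.decode k : Option ι) with _ | τ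
      · simp only
        exact ev_zero
      · simp only
        exact hg τ
  have key : ∀ x ε, ε ∈ E β S a x ↔
      (∀ n, rem β ε n x ∈ II β m) ∧ Good S' a' ε := by
    intro x ε
    refine and_congr (hasSum_iff hβ ε x) ?_
    rw [hgood]
    refine forall_congr' fun τ => ?_
    obtain ⟨B, hB⟩ := (hS τ).bdd
    exact limsup_iff (hB ε) _
  unfold AlmostEvery at h ⊢
  rw [ae_restrict_iff' measurableSet_Icc] at h ⊢
  have h1 : volume (II β m \ E1 β S' a') = 0 := by
    refine measure_mono_null ?_ (ae_iff.1 h)
    intro x hx hx'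
    obtain ⟨ε, hε⟩ := hx' hx.1
    exact hx.2 ⟨ε, ((key x ε).1 hε).2, ((key x ε).1 hε).1⟩
  filter_upwards [main2 hβ hm hm' hS' h1] with x hx hx'
  obtain ⟨e, h2, h3⟩ := hx hx'
  refine le_antisymm ((Cardinal.mk_set_le _).trans ?_) ?_
  · have : Cardinal.mk (ℕ → Fin (m + 1)) = ((m + 1 : ℕ) : Cardinal) ^ Cardinal.aleph0 := by
      simp
    rw [this, Cardinal.nat_power_aleph0 (by omega)]
  · have : Cardinal.mk (ℕ → Bool) = Cardinal.continuum := by simp
    rw [← this]
    exact Cardinal.mk_le_of_injective (f := fun s => (⟨e s, (key x _).2 (h3 s)⟩ : E β S a x))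
      fun s s' h => h2 (congrArg Subtype.val h)

theorem near {f : (ℕ → Fin (m + 1)) → ℝ} (hf : Continuous f) {δ : ℝ} (hδ : 0 < δ) :
    ∃ N : ℕ, ∀ w w', (∀ i < N, w i = w' i) → |f w - f w'| ≤ δ := by
  by_contra hcon
  push Not at hcon
  choose w w' h1 h2 using hcon
  obtain ⟨z, φ, hφ, hz⟩ := CompactSpace.tendsto_subseq w
  have hz' : Tendsto (w' ∘ φ) atTop (𝓝 z) := by
    rw [tendsto_pi_nhds] at hz ⊢
    intro i
    refine (hz i).congr' ?_
    filter_upwards [eventually_gt_atTop i] with k hk
    exact h1 (φ k) i (lt_of_lt_of_le hk hφ.le_apply)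
  have h3 : Tendsto (fun k => |f (w (φ k)) - f (w' (φ k))|) atTop (𝓝 0) := by
    have := (((hf.tendsto z).comp hz).sub ((hf.tendsto z).comp hz')).abs
    simpa using this
  have h4 := ge_of_tendsto' h3 fun k => (h2 (φ k)).le
  linarith

theorem birkhoff {f : (ℕ → Fin (m + 1)) → ℝ} (hf : Continuous f) :
    AsympAdd fun w n => ∑ i ∈ Finset.range n, f (fun k => w (i + k)) := by
  obtain ⟨B, hB⟩ := isCompact_univ.exists_bound_of_continuousOn hf.continuousOn
  have hB' : ∀ w, |f w| ≤ B := fun w => hB w trivial
  have hB0 : 0 ≤ B := (abs_nonneg _).trans (hB' fun _ => 0)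
  refine ⟨⟨B, fun w n => ?_⟩, fun ε hε => ?_, fun ε hε => ⟨0, fun w n l => ?_⟩⟩
  · refine (Finset.abs_sum_le_sum_abs _ _).trans ?_
    have := Finset.sum_le_card_nsmul (Finset.range n) _ B fun i _ => hB' fun k => w (i + k)
    rw [Finset.card_range, nsmul_eq_mul] at this
    linarith
  · obtain ⟨N, hN⟩ := near hf hε
    refine ⟨2 * B * N, fun w w' n h => ?_⟩
    rw [← Finset.sum_sub_distrib]
    refine (Finset.abs_sum_le_sum_abs _ _).trans ?_
    have h1 : ∀ i ∈ Finset.range n, |f (fun k => w (i + k)) - f (fun k => w' (i + k))| ≤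
        ε + if n < i + N then 2 * B else 0 := by
      intro i hi
      split_ifs with hc
      · have a1 := abs_sub (f (fun k => w (i + k))) (f (fun k => w' (i + k)))
        have a2 := hB' fun k => w (i + k)
        have a3 := hB' fun k => w' (i + k)
        linarith
      · rw [add_zero]
        exact hN _ _ fun j hj => h _ (by omega)
    refine (Finset.sum_le_sum h1).trans ?_
    rw [Finset.sum_add_distrib, Finset.sum_const, Finset.card_range, nsmul_eq_mul,
      ← Finset.sum_filter, Finset.sum_const, nsmul_eq_mul]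
    have h2 : ((Finset.range n).filter fun i => n < i + N).card ≤ N := by
      refine (Finset.card_le_card (t := Finset.Ico (n - N) n) fun i hi => ?_).trans ?_
      · rw [Finset.mem_filter, Finset.mem_range] at hi
        rw [Finset.mem_Ico]
        omega
      · rw [Nat.card_Ico]; omega
    have h3 : ((((Finset.range n).filter fun i => n < i + N).card : ℕ) : ℝ) ≤ N := by
      exact_mod_cast h2
    nlinarith
  · simp only
    rw [Finset.sum_range_add]
    have : ∀ i, (fun k => w (n + i + k)) = fun k => w (n + (i + k)) := fun i =>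
      funext fun k => by rw [add_assoc]
    simp only [this, add_sub_cancel_left, sub_self, abs_zero]
    positivity

theorem continuous_case (β : ℝ) (hβ : 1 < β) (hm : β < m + 1) (ι : Type) [Countable ι]
    (f : ι → (ℕ → Fin (m + 1)) → ℝ) (u l : ι → ℝ) (hf : ∀ τ, Continuous (f τ)) :
    AlmostEvery β m (fun x => (EC β f u l x).Nonempty) ↔
    AlmostEvery β m (fun x => Cardinal.mk (EC β f u l x) = Cardinal.continuum) := by
  let S : ι × Bool → (ℕ → Fin (m + 1)) → ℕ → ℝ := fun p w n =>
    ∑ i ∈ Finset.range n, (fun v => if p.2 then f p.1 v else - f p.1 v) (fun k => w (i + k))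
  let a : ι × Bool → ℝ := fun p => if p.2 then u p.1 else - l p.1
  have hS : ∀ p, AsympAdd (S p) := by
    rintro ⟨τ, b⟩
    refine birkhoff (f := fun v => if b then f τ v else - f τ v) ?_
    cases b
    · exact (hf τ).neg
    · exact hf τ
  have hE : ∀ x, EC β f u l x = E β S a x := by
    intro x
    ext ε
    refine and_congr Iff.rfl ?_
    rw [Prod.forall]
    refine forall_congr' fun τ => ?_
    rw [Bool.forall_bool, and_comm]
    obtain ⟨B, hB⟩ := (birkhoff (hf τ)).bdd
    obtain ⟨B', hB'⟩ := (hS (τ, false)).bdd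
    refine and_congr ?_ ?_
    · unfold average
      rw [liminf_iff (hB ε), limsup_iff (hB' ε)]
      simp [S, a, Finset.sum_neg_distrib]
    · unfold average
      simp [S, a]
  simp only [hE]
  exact general β hβ hm _ S a hS

theorem word_case (β : ℝ) (hβ : 1 < β) (hm : β < m + 1) (W : Set (List (Fin (m + 1))))
    (u l : List (Fin (m + 1)) → ℝ) :
    AlmostEvery β m (fun x => (EW β W u l x).Nonempty) ↔
    AlmostEvery β m (fun x => Cardinal.mk (EW β W u l x) = Cardinal.continuum) := by
  classical
  let f : W → (ℕ → Fin (m + 1)) → ℝ := fun v w =>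
    if ∀ (j : ℕ) (h : j < v.1.length), w j = v.1[j] then 1 else 0
  have hf : ∀ v, Continuous (f v) := by
    intro v
    have hset : {w : ℕ → Fin (m + 1) | ∀ (j : ℕ) (h : j < v.1.length), w j = v.1[j]} =
        ⋂ j : Fin v.1.length, (fun w : ℕ → Fin (m + 1) => w j) ⁻¹' {v.1[j]} := by
      ext w
      simp only [Set.mem_ofPred_eq, Set.mem_iInter, Set.mem_preimage, Set.mem_singleton_iff]
      exact ⟨fun h j => h j j.2, fun h j hj => h ⟨j, hj⟩⟩
    have hcl : IsClopen {w : ℕ → Fin (m + 1) | ∀ (j : ℕ) (h : j < v.1.length), w j = v.1[j]} := by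
      rw [hset]
      exact isClopen_iInter_of_finite fun j =>
        (isClopen_discrete _).preimage (continuous_apply _)
    have := hcl.continuous_indicator (f := fun _ : ℕ → Fin (m + 1) => (1 : ℝ)) continuous_const
    refine this.congr fun w => ?_
    simp [f, Set.indicator]
  have hE : ∀ x, EW β W u l x = EC β f (fun v => u v) (fun v => l v) x := by
    intro x
    ext ε
    refine and_congr Iff.rfl ?_
    rw [Subtype.forall]
    refine forall_congr' fun v => forall_congr' fun hv => ?_
    have : freq v ε = average (f ⟨v, hv⟩) ε := by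
      funext n
      simp [freq, average, f]
    rw [this]
  simp only [hE]
  exact continuous_case β hβ hm W f _ _ hf

end aux

/-- **A continuum of expansions with prescribed statistics.** Let `β > 1` and `m` with
`β < m + 1` (for instance `β` not an integer and `m = ⌊β⌋`), and consider the expansions in base
`β` with digits `0, …, m`. Almost every number has an expansion with the prescribed statistics if
and only if almost every number has exactly `2 ^ ℵ₀` of them, for each of the following kinds of
statistics:
1. the upper limits of the averages of countably many asymptotically additive functionals;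
2. the upper and lower limits of the Birkhoff averages of countably many continuous functions on
   the space of digit sequences;
3. the upper and lower frequencies of the words in any given set of finite words (the words of
   length one give the digit frequencies). -/
theorem result (m : ℕ) (β : ℝ) (hβ : 1 < β) (hm : β < m + 1) :
    (∀ (ι : Type) [Countable ι] (S : ι → (ℕ → Fin (m + 1)) → ℕ → ℝ) (a : ι → ℝ),
      (∀ τ, AsympAdd (S τ)) →
      (AlmostEvery β m (fun x => (E β S a x).Nonempty) ↔
        AlmostEvery β m (fun x => Cardinal.mk (E β S a x) = Cardinal.continuum))) ∧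
    (∀ (ι : Type) [Countable ι] (f : ι → (ℕ → Fin (m + 1)) → ℝ) (u l : ι → ℝ),
      (∀ τ, Continuous (f τ)) →
      (AlmostEvery β m (fun x => (EC β f u l x).Nonempty) ↔
        AlmostEvery β m (fun x => Cardinal.mk (EC β f u l x) = Cardinal.continuum))) ∧
    ∀ (W : Set (List (Fin (m + 1)))) (u l : List (Fin (m + 1)) → ℝ),
      (AlmostEvery β m (fun x => (EW β W u l x).Nonempty) ↔
        AlmostEvery β m (fun x => Cardinal.mk (EW β W u l x) = Cardinal.continuum)) :=
  ⟨fun ι _ S a hS => general β hβ hm ι S a hS,
    fun ι _ f u l hf => continuous_case β hβ hm ι f u l hf,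
    fun W u l => word_case β hβ hm W u l⟩

end Pool.Agent.Results.MP_d4a354_an.AllStatistics
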